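import Pool.Agent.ISO.StmtsD

/-! Row DES of squad ISO (MP_b48657_ag): descent from `ℂ` to `k`. -/

set_option autoImplicit false

namespace Pool.Agent.ISO.H50

open MvPolynomial Pool.Agent.ISO

/-- the map on the coefficients -/
noncomputable def cmap {k σ : Type} [Field k] [Algebra k ℂ] (π : ℂ →ₗ[k] k)
    (P : MvPolynomial σ ℂ) : MvPolynomial σ k := ∑ n ∈ P.support, monomial n (π (coeff n P))

theorem coeff_cmap {k σ : Type} [Field k] [Algebra k ℂ] (π : ℂ →ₗ[k] k) (P : MvPolynomial σ ℂ)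
    (n : σ →₀ ℕ) : coeff n (cmap π P) = π (coeff n P) := by
  classical
  unfold cmap
  rw [coeff_sum]
  simp only [coeff_monomial]
  rw [Finset.sum_ite_eq' P.support n fun x => π (coeff x P)]
  split_ifs with h
  · rfl
  · rw [notMem_support_iff.1 h, map_zero]

theorem coeff_mul_cmap {k σ : Type} [Field k] [Algebra k ℂ] (π : ℂ →ₗ[k] k)
    (a : MvPolynomial σ ℂ) (Q : MvPolynomial σ k) (n : σ →₀ ℕ) :
    π (coeff n (a * map (algebraMap k ℂ) Q)) = coeff n (cmap π a * Q) := by
  classical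
  rw [coeff_mul, coeff_mul, map_sum]
  apply Finset.sum_congr rfl
  intro x _
  rw [coeff_cmap, coeff_map, mul_comm, ← Algebra.smul_def, map_smul, smul_eq_mul, mul_comm]

/-- ROW DES -/
theorem des : DesStmt := by
  intro k σ ι _ _ _ f v h
  classical
  obtain ⟨π, hπ⟩ := LinearMap.exists_leftInverse_of_injective (Algebra.linearMap k ℂ)
    (LinearMap.ker_eq_bot.2 (algebraMap k ℂ).injective)
  have hπ1 : ∀ c : k, π (algebraMap k ℂ c) = c := fun c => LinearMap.congr_fun hπ c
  obtain ⟨a, b, hab⟩ := h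
  refine ⟨fun j => cmap π (a j), fun l => cmap π (b l), fun j => ?_⟩
  ext n
  have h1 := congrArg (fun P => π (coeff n P)) (hab j)
  simp only [coeff_add, coeff_sum, map_add, map_sum, pderiv_map, coeff_mul_cmap, coeff_map,
    hπ1] at h1
  rw [h1, coeff_add, coeff_sum]

end Pool.Agent.ISO.H50
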