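import Pool.Agent.ISO.StmtsD

/-! Row DGR of squad ISO (MP_b48657_ag): the graded step. -/

set_option autoImplicit false

namespace Pool.Agent.ISO.H50

open MvPolynomial Pool.Agent.ISO

section

variable {k σ : Type} [Field k]

theorem mem_Mx2 {x : MvPolynomial σ k} (h0 : coeff 0 x = 0)
    (h1 : ∀ j, coeff (Finsupp.single j 1) x = 0) : x ∈ Mx k σ 2 := by
  rw [mem_Mx]
  intro β hβ
  by_cases hb : β = 0
  · rw [hb]
    exact h0
  · have hb1 : β.degree ≠ 0 := fun h => hb ((Finsupp.degree_eq_zero_iff β).1 h)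
    obtain ⟨j, hj⟩ : ∃ j, β j ≠ 0 := by
      by_contra hc
      push Not at hc
      exact hb (Finsupp.ext hc)
    have h2 : Finsupp.single j 1 ≤ β := by
      rw [Finsupp.single_le_iff]
      omega
    obtain ⟨γ, hγ⟩ := exists_add_of_le h2
    have h3 : β.degree = 1 + γ.degree := by
      rw [hγ, map_add, Finsupp.degree_single]
    have h4 : γ = 0 := (Finsupp.degree_eq_zero_iff γ).1 (by omega)
    rw [hγ, h4, add_zero]
    exact h1 j

theorem X_mem [Fintype σ] (p : σ → k) (ψ : σ → MvPolynomial σ k) (hc : Crd p ψ) (i : σ) :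
    (X i : MvPolynomial σ k) ∈
      Ideal.span (Set.range fun l => ψ l - C (p l)) ⊔ Mx k σ 2 := by
  classical
  obtain ⟨hc0, hli⟩ := hc
  let A : Matrix σ σ k := fun l j => coeff (Finsupp.single j 1) (ψ l)
  have hA : IsUnit A := Matrix.linearIndependent_rows_iff_isUnit.1 hli
  have hdet : IsUnit A.det := (Matrix.isUnit_iff_isUnit_det A).1 hA
  have hinv : A⁻¹ * A = 1 := Matrix.nonsing_inv_mul A hdet
  have hsplit : (X i : MvPolynomial σ k) = ∑ l, C (A⁻¹ i l) * (ψ l - C (p l)) +
      (X i - ∑ l, C (A⁻¹ i l) * (ψ l - C (p l))) := by ring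
  rw [hsplit]
  apply Submodule.add_mem
  · apply Ideal.mem_sup_left
    apply Ideal.sum_mem
    intro l _
    apply Ideal.mul_mem_left
    exact Ideal.subset_span ⟨l, rfl⟩
  · apply Ideal.mem_sup_right
    apply mem_Mx2
    · rw [coeff_sub, coeff_sum, coeff_zero_X, zero_sub, neg_eq_zero]
      apply Finset.sum_eq_zero
      intro l _
      rw [coeff_C_mul, coeff_sub, coeff_zero_C]
      have := hc0 l
      rw [constantCoeff_eq] at this
      rw [this, sub_self, mul_zero]
    · intro j
      rw [coeff_sub, coeff_sum]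
      have h1 : ∀ l, coeff (Finsupp.single j 1) (C (A⁻¹ i l) * (ψ l - C (p l))) =
          A⁻¹ i l * A l j := by
        intro l
        rw [coeff_C_mul, coeff_sub, coeff_C, if_neg, sub_zero]
        intro h
        have := Finsupp.single_eq_zero.1 h.symm
        exact one_ne_zero this
      rw [Finset.sum_congr rfl fun l _ => h1 l, ← Matrix.mul_apply, hinv, Matrix.one_apply,
        coeff_X]
      by_cases hij : i = j
      · rw [hij]
        simp
      · rw [if_neg hij, if_neg, sub_zero]
        intro h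
        apply hij
        exact Finsupp.single_left_injective (one_ne_zero) h

end

/-- ROW DGR -/
theorem dgr (hdmx : DmxStmt) : DgrStmt := by
  intro k σ _ _ p ψ hc e
  classical
  obtain ⟨H1, H2, H3, H4⟩ := hdmx k σ
  set 𝔞 : Ideal (MvPolynomial σ k) := Ideal.span (Set.range fun l => ψ l - C (p l)) with h𝔞
  have ha1 : 𝔞 ≤ Mx k σ 1 := by
    rw [h𝔞, Ideal.span_le]
    rintro x ⟨l, rfl⟩
    show ψ l - C (p l) ∈ Mx k σ 1
    rw [H4, map_sub, hc.1 l, constantCoeff_C, sub_self]
  have hM1 : Mx k σ 1 ≤ 𝔞 ⊔ Mx k σ 2 := by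
    intro x hx
    have h0 : constantCoeff x = 0 := (H4 x).1 hx
    have hsplit : x = ∑ j, C (coeff (Finsupp.single j 1) x) * X j +
        (x - ∑ j, C (coeff (Finsupp.single j 1) x) * X j) := by ring
    rw [hsplit]
    apply Submodule.add_mem
    · apply Ideal.sum_mem
      intro j _
      apply Ideal.mul_mem_left
      exact X_mem p ψ hc j
    · apply Ideal.mem_sup_right
      apply mem_Mx2
      · rw [coeff_sub, coeff_sum]
        rw [constantCoeff_eq] at h0
        rw [h0, zero_sub, neg_eq_zero]
        apply Finset.sum_eq_zero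
        intro j _
        rw [coeff_C_mul, coeff_zero_X, mul_zero]
      · intro i
        rw [coeff_sub, coeff_sum]
        rw [Finset.sum_eq_single i]
        · rw [coeff_C_mul, coeff_X, if_pos rfl, mul_one, sub_self]
        · intro j _ hji
          rw [coeff_C_mul, coeff_X, if_neg, mul_zero]
          intro h
          exact hji (Finsupp.single_left_injective (one_ne_zero) h)
        · intro h
          exact absurd (Finset.mem_univ i) h
  have hpow : ∀ e : ℕ, Mx k σ 1 ^ e ≤ Mx k σ e := by
    intro e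
    induction e with
    | zero =>
      intro x _
      rw [mem_Mx]
      intro β hβ
      exact absurd hβ (Nat.not_lt_zero _)
    | succ e ih =>
      rw [pow_succ]
      apply Ideal.mul_le.2
      intro x hx y hy
      exact H1 e 1 x y (ih hx) hy
  have hmul : ∀ a b : ℕ, Mx k σ a * Mx k σ b ≤ Mx k σ (a + b) := by
    intro a b
    apply Ideal.mul_le.2
    intro x hx y hy
    exact H1 a b x y hx hy
  have hmain : ∀ e : ℕ, Mx k σ 1 ^ e ≤ 𝔞 ^ e ⊔ Mx k σ (e + 1) := by
    intro e
    induction e with
    | zero =>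
      rw [pow_zero, pow_zero]
      exact le_sup_left
    | succ e ih =>
      calc Mx k σ 1 ^ (e + 1) = Mx k σ 1 ^ e * Mx k σ 1 := pow_succ _ _
        _ ≤ (𝔞 ^ e ⊔ Mx k σ (e + 1)) * (𝔞 ⊔ Mx k σ 2) := Ideal.mul_mono ih hM1
        _ = (𝔞 ^ e * 𝔞 ⊔ Mx k σ (e + 1) * 𝔞) ⊔
            (𝔞 ^ e * Mx k σ 2 ⊔ Mx k σ (e + 1) * Mx k σ 2) := by
          rw [Ideal.mul_sup, Ideal.sup_mul, Ideal.sup_mul]
        _ ≤ 𝔞 ^ (e + 1) ⊔ Mx k σ (e + 1 + 1) := by
          apply sup_le
          · apply sup_le
            · rw [← pow_succ]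
              exact le_sup_left
            · apply le_sup_of_le_right
              exact (Ideal.mul_mono_right ha1).trans (hmul (e + 1) 1)
          · apply sup_le
            · apply le_sup_of_le_right
              have h1 : 𝔞 ^ e ≤ Mx k σ e := (Ideal.pow_right_mono ha1 e).trans (hpow e)
              exact (Ideal.mul_mono_left h1).trans (hmul e 2)
            · apply le_sup_of_le_right
              exact (hmul (e + 1) 2).trans (H2 _ _ (by omega))
  exact (H3 e).trans (hmain e)

end Pool.Agent.ISO.H50
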