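import Pool.Agent.ISO.StmtsZ
import Pool.Agent.Helper93_OMP.Jy0

/-! Row ZLO of squad ISO (MP_b48657_ag). -/

set_option autoImplicit false

namespace Pool.Agent.ISO.Z.H50

open PowerSeries Finset Pool.Agent.Helper6_Mono Pool.Agent.Helper32_OMP Pool.Agent.ISO
open Pool.Agent.ISO.Z

/-- ROW ZLO -/
theorem zlo (hzpt : ZptStmt) : ZloStmt := by
  intro k _ σ ι _ _ R _ L χ f a c f1 p hA m hm hω
  have e : (MvPolynomial.C (1 : k) * ∏ i : Unit, (fun _ : Unit => f1) i ^ (fun _ : Unit => 1) i :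
      MvPolynomial σ k) = f1 := by simp
  have h1 := hzpt k σ ι Unit R L χ f a c (fun _ => f1) (fun _ => 1) 1 p (by rw [e]; exact hA) m hm
  have h2 := Pool.Agent.Helper32_OMP.H93.jy0 k σ Unit R L (χ.comp (Kpt p)) (fun _ => f1)
    (fun _ => 1) 1 m hm hω
  rw [e] at h2
  rw [h1]
  exact h2.symm

end Pool.Agent.ISO.Z.H50
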